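import Pool.Agent.Y332.SM.Fin

set_option autoImplicit false

/-!
# The standard map: images of arbitrary sets (no invariance)
-/

namespace Pool.Agent.Q183.SMG

open Real MeasureTheory Function Set Filter Topology
open Pool.Agent.TH705.SM Pool.Agent.Y332.SM
open scoped ENNReal

/-- a single good point of `B` which is far (horizontally) from the boundary of `B` is enough -/
theorem fwd_pt {a M : ℝ} (hM : 16 ≤ M) (haM : |a| = M ^ 2) {n : ℕ} (hn : 1 ≤ n) {B : Set T2} {p : T2}
    (hpB : p ∈ B) (hp1 : p ∉ bad a M n)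
    (hp2 : p ∉ hnbd ((1 / √M) ^ (n + 1) / 5) (frontier B)) : HasCurve ((S a)^[n] '' B) := by
  unfold bad at hp1
  rw [mem_union, not_or] at hp1
  obtain ⟨p1, p2⟩ := p
  induction p1 using QuotientAddGroup.induction_on with
  | H t =>
    induction p2 using QuotientAddGroup.induction_on with
    | H s =>
      obtain ⟨h3, h4⟩ := good_point hM haM hn hp1.1 hp1.2
      have h5 := seg_sub (by positivity) hpB hp2
      refine (curve (bs_ge hM n) h3).mono (image_mono (subset_trans ?_ h5))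
      rintro q ⟨u, hu, rfl⟩
      exact ⟨u, hu.trans h4, rfl⟩

theorem swap_image {a : ℝ} (m : ℕ) (C : Set T2) :
    (S a)^[m] '' (Prod.swap ⁻¹' C) = Prod.swap ⁻¹' ((Si a)^[m] '' C) := by
  ext x
  constructor
  · rintro ⟨z, hz, rfl⟩
    exact ⟨Prod.swap z, hz, (swap_S_iter a m z).symm⟩
  · rintro ⟨z, hz, hzx⟩
    refine ⟨Prod.swap z, by simpa using hz, ?_⟩
    have h := swap_S_iter a m (Prod.swap z)
    rw [Prod.swap_swap, hzx] at h
    have h2 := congrArg Prod.swap h
    simpa using h2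

/-- the reversed version -/
theorem bwd_pt {a M : ℝ} (hM : 16 ≤ M) (haM : |a| = M ^ 2) {m : ℕ} (hm : 1 ≤ m) {C : Set T2} {p : T2}
    (hpC : Prod.swap p ∈ C) (hp1 : p ∉ bad a M m)
    (hp2 : p ∉ hnbd ((1 / √M) ^ (m + 1) / 5) (Prod.swap ⁻¹' frontier C)) :
    HasCurve (Prod.swap ⁻¹' ((Si a)^[m] '' C)) := by
  rw [← swap_image]
  refine fwd_pt hM haM hm (p := p) hpC hp1 ?_
  have h := (Homeomorph.prodComm UnitAddCircle UnitAddCircle).preimage_frontier C
  have h' : Prod.swap ⁻¹' frontier C = frontier (Prod.swap ⁻¹' C) := h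
  rw [← h']
  exact hp2

/-- the volume form -/
theorem fwd {a M : ℝ} (hM : 16 ≤ M) (haM : |a| = M ^ 2) {n : ℕ} (hn : 1 ≤ n) {B : Set T2}
    (h : ENNReal.ofReal (3 * n / |a| + 3.71 / M) +
      volume (hnbd ((1 / √M) ^ (n + 1) / 5) (frontier B)) < volume B) :
    HasCurve ((S a)^[n] '' B) := by
  by_contra hno
  apply absurd h
  rw [not_lt]
  have h1 : B ⊆ bad a M n ∪ hnbd ((1 / √M) ^ (n + 1) / 5) (frontier B) := by
    intro p hp
    by_contra hcon
    rw [mem_union, not_or] at hcon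
    exact hno (fwd_pt hM haM hn hp hcon.1 hcon.2)
  exact (measure_mono h1).trans ((measure_union_le _ _).trans
    (add_le_add_left (vol_bad hM haM hn) _))

theorem bwd {a M : ℝ} (hM : 16 ≤ M) (haM : |a| = M ^ 2) {m : ℕ} (hm : 1 ≤ m) {C : Set T2}
    (h : ENNReal.ofReal (3 * m / |a| + 3.71 / M) +
      volume (hnbd ((1 / √M) ^ (m + 1) / 5) (Prod.swap ⁻¹' frontier C)) < volume C) :
    HasCurve (Prod.swap ⁻¹' ((Si a)^[m] '' C)) := by
  rw [← swap_image]
  refine fwd hM haM hm ?_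
  have h' : Prod.swap ⁻¹' frontier C = frontier (Prod.swap ⁻¹' C) :=
    (Homeomorph.prodComm UnitAddCircle UnitAddCircle).preimage_frontier C
  rw [← h', vol_swap]
  exact h

/-- if both `B` and its complement have a crossing at time `n`, then the image at time `n + m` has a
boundary which is everywhere dense at the scale of time `m` -/
theorem dense {a M : ℝ} (hM : 16 ≤ M) (haM : |a| = M ^ 2) {n m : ℕ} (hm : 1 ≤ m) {B : Set T2}
    (h1 : HasCurve ((S a)^[n] '' B)) (h2 : HasCurve ((S a)^[n] '' Bᶜ)) :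
    (bad a M m ∪ hnbd ((1 / √M) ^ (m + 1) / 5)
      (Prod.swap ⁻¹' frontier ((S a)^[n + m] '' B))) = univ := by
  have hinj : Injective ((S a)^[n]) := by
    have hl : LeftInverse (Si a) (S a) := by
      intro p
      unfold Si S
      simp
    exact (hl.injective).iterate n
  have hback : ∀ C : Set T2, (Si a)^[m] '' ((S a)^[n + m] '' C) = (S a)^[n] '' C := by
    intro C
    have hl : LeftInverse (Si a) (S a) := by
      intro p
      unfold Si S
      simp
    rw [image_image]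
    apply image_congr'
    intro p
    rw [add_comm n m, iterate_add_apply]
    exact (hl.iterate m) _
  have hsurj : Surjective ((S a)^[n + m]) := by
    have hl : RightInverse (Si a) (S a) := S_Si a
    exact hl.surjective.iterate _
  have hinj2 : Injective ((S a)^[n + m]) := by
    have hl : LeftInverse (Si a) (S a) := by
      intro p
      unfold Si S
      simp
    exact (hl.injective).iterate _
  rw [eq_univ_iff_forall]
  intro p
  by_contra hcon
  rw [mem_union, not_or] at hcon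
  by_cases hp : Prod.swap p ∈ (S a)^[n + m] '' B
  · have h3 := bwd_pt hM haM hm hp hcon.1 hcon.2
    rw [hback] at h3
    obtain ⟨z, hz1, hz2⟩ := meet h2 h3
    obtain ⟨x, hx, rfl⟩ := hz1
    obtain ⟨y, hy, hxy⟩ := hz2
    rw [hinj hxy] at hy
    exact hx hy
  · have hc : ((S a)^[n + m] '' B)ᶜ = (S a)^[n + m] '' Bᶜ :=
      (image_compl_eq ⟨hinj2, hsurj⟩).symm
    have hp' : Prod.swap p ∈ (S a)^[n + m] '' Bᶜ := by
      rw [← hc]
      exact hp
    have hfr : frontier ((S a)^[n + m] '' B) = frontier ((S a)^[n + m] '' Bᶜ) := by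
      rw [← hc, frontier_compl]
    rw [hfr] at hcon
    have h3 := bwd_pt hM haM hm hp' hcon.1 hcon.2
    rw [hback] at h3
    obtain ⟨z, hz1, hz2⟩ := meet h1 h3
    obtain ⟨x, hx, rfl⟩ := hz1
    obtain ⟨y, hy, hxy⟩ := hz2
    rw [hinj hxy] at hy
    exact hy hx

theorem dense_vol {a M : ℝ} (hM : 16 ≤ M) (haM : |a| = M ^ 2) {n m : ℕ} (hm : 1 ≤ m) {B : Set T2}
    (h1 : HasCurve ((S a)^[n] '' B)) (h2 : HasCurve ((S a)^[n] '' Bᶜ)) :
    1 ≤ ENNReal.ofReal (3 * m / |a| + 3.71 / M) + volume (hnbd ((1 / √M) ^ (m + 1) / 5)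
      (Prod.swap ⁻¹' frontier ((S a)^[n + m] '' B))) := by
  have h3 : volume (univ : Set T2) = 1 := by
    rw [Measure.volume_eq_prod, ← univ_prod_univ, Measure.prod_prod]
    simp
  rw [← h3, ← dense hM haM hm h1 h2]
  exact (measure_union_le _ _).trans (add_le_add_left (vol_bad hM haM hm) _)

/-- **the alternative**: for every set, at every pair of times -/
theorem alternative {a M : ℝ} (hM : 16 ≤ M) (haM : |a| = M ^ 2) {n m : ℕ} (hn : 1 ≤ n) (hm : 1 ≤ m)
    (B : Set T2) :
    (min (volume B) (volume Bᶜ) ≤ ENNReal.ofReal (3 * n / |a| + 3.71 / M) +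
      volume (hnbd ((1 / √M) ^ (n + 1) / 5) (frontier B))) ∨
    (1 ≤ ENNReal.ofReal (3 * m / |a| + 3.71 / M) + volume (hnbd ((1 / √M) ^ (m + 1) / 5)
      (Prod.swap ⁻¹' frontier ((S a)^[n + m] '' B)))) := by
  by_cases h1 : HasCurve ((S a)^[n] '' B)
  · by_cases h2 : HasCurve ((S a)^[n] '' Bᶜ)
    · right
      exact dense_vol hM haM hm h1 h2
    · left
      have h3 : volume Bᶜ ≤ _ := not_lt.1 fun h => h2 (fwd hM haM hn h)
      rw [frontier_compl] at h3
      exact (min_le_right _ _).trans h3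
  · left
    have h3 : volume B ≤ _ := not_lt.1 fun h => h1 (fwd hM haM hn h)
    exact (min_le_left _ _).trans h3

/-- two sets meet -/
theorem meets {a M : ℝ} (hM : 16 ≤ M) (haM : |a| = M ^ 2) {n m : ℕ} (hn : 1 ≤ n) (hm : 1 ≤ m)
    {B C : Set T2}
    (h1 : ENNReal.ofReal (3 * n / |a| + 3.71 / M) +
      volume (hnbd ((1 / √M) ^ (n + 1) / 5) (frontier B)) < volume B)
    (h2 : ENNReal.ofReal (3 * m / |a| + 3.71 / M) +
      volume (hnbd ((1 / √M) ^ (m + 1) / 5) (Prod.swap ⁻¹' frontier C)) < volume C) :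
    ∃ p ∈ B, (S a)^[n + m] p ∈ C := by
  obtain ⟨z, ⟨x, hx, hxz⟩, ⟨y, hy, hyz⟩⟩ := meet (fwd hM haM hn h1) (bwd hM haM hm h2)
  refine ⟨x, hx, ?_⟩
  rw [add_comm n m, iterate_add_apply, hxz, ← hyz, S_iter_Si]
  exact hy

end Pool.Agent.Q183.SMG
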