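import Pool.Agent.Q183.SMG.Gen

set_option autoImplicit false

/-!
# Lengths of the boundaries of images
-/

namespace Pool.Agent.Q183.SMG

open Real MeasureTheory Function Set Filter Topology
open Pool.Agent.TH705.SM Pool.Agent.Y332.SM
open scoped ENNReal

/-- the time at which the alternative is used -/
noncomputable def tm (a M η : ℝ) : ℕ := ⌈4 * ((η * |a| - 5 * M) / 12)⌉₊ + 1

/-- from the area of the neighbourhood to the length -/
theorem len_of {a M : ℝ} (hM : 16 ≤ M) (haM : |a| = M ^ 2) {η : ℝ} (hE : 0 < (η * |a| - 5 * M) / 12)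
    {ℓ : ℝ≥0∞}
    (h : ENNReal.ofReal η ≤ ENNReal.ofReal (3 * (tm a M η) / |a| + 3.71 / M) +
      ENNReal.ofReal (4 * ((1 / √M) ^ (tm a M η + 1) / 5)) * ℓ) :
    ENNReal.ofReal (|a| ^ ((η * |a| - 5 * M) / 12)) ≤ 1 + 2 * ℓ := by
  have hM0 : 0 < M := by linarith
  have ha0 : 0 < |a| := by rw [haM]; positivity
  have ha1 : 1 < |a| := by rw [haM]; nlinarith
  have hs0 : 0 < √M := Real.sqrt_pos.2 hM0
  set E : ℝ := (η * |a| - 5 * M) / 12 with hEdef
  set k : ℕ := ⌈4 * E⌉₊ with hk
  have htm : tm a M η = k + 1 := rfl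
  have hk1 : 4 * E ≤ k := Nat.le_ceil _
  have hk2 : (k:ℝ) < 4 * E + 1 := Nat.ceil_lt_add_one (by positivity)
  rw [htm] at h
  by_cases htop : ℓ = (⊤ : ℝ≥0∞)
  · rw [htop]
    have : (1:ℝ≥0∞) + 2 * ⊤ = ⊤ := by
      rw [ENNReal.mul_top (by norm_num)]
      simp
    rw [this]
    exact le_top
  · obtain ⟨l, hl0, rfl⟩ : ∃ l : ℝ, 0 ≤ l ∧ ℓ = ENNReal.ofReal l :=
      ⟨ℓ.toReal, ENNReal.toReal_nonneg, (ENNReal.ofReal_toReal htop).symm⟩
    rw [← ENNReal.ofReal_mul (by positivity), ← ENNReal.ofReal_add (by positivity)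
      (by positivity), ENNReal.ofReal_le_ofReal_iff (by positivity)] at h
    push_cast at h
    have hsq : √M ^ 2 = M := Real.sq_sqrt hM0.le
    -- the error terms
    have h1 : 3 * ((k:ℝ) + 1) / |a| + 3.71 / M + 0.4 / M ≤ η := by
      have h2 : η * |a| = 12 * E + 5 * M := by rw [hEdef]; ring
      have h3 : (3 * ((k:ℝ) + 1) / |a| + 3.71 / M + 0.4 / M) * |a| = 3 * (k + 1) + 4.11 * M := by
        have e3 : (3 * ((k:ℝ) + 1) / |a| + 3.71 / M + 0.4 / M) * |a| =
          3 * (k + 1) * (|a| / |a|) + 4.11 * (|a| / M) := by ring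
        rw [e3, div_self ha0.ne', haM]
        field_simp
      have h4 : (3 * ((k:ℝ) + 1) / |a| + 3.71 / M + 0.4 / M) * |a| ≤ η * |a| := by
        rw [h3, h2]
        linarith
      exact le_of_mul_le_mul_right h4 ha0
    have h5 : 0.4 / M ≤ 4 * ((1 / √M) ^ (k + 1 + 1) / 5) * l := by linarith
    have e : (1 / √M) ^ (k + 1 + 1) = (1 / √M ^ k) * (1 / M) := by
      rw [div_pow, one_pow, pow_add, pow_add, pow_one, mul_assoc, ← pow_two, hsq]
      field_simp
    rw [e] at h5
    have h6 : √M ^ k ≤ 2 * l := by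
      have h7 : 4 * ((1 / √M ^ k) * (1 / M) / 5) * l = (0.4 / M) * ((2 * l) / √M ^ k) := by
        field_simp
        ring
      rw [h7] at h5
      have h8 : 1 ≤ (2 * l) / √M ^ k := by
        by_contra hcon
        rw [not_le] at hcon
        have h9 : (0.4 / M) * ((2 * l) / √M ^ k) < (0.4 / M) * 1 :=
          mul_lt_mul_of_pos_left hcon (by positivity)
        linarith
      rwa [le_div_iff₀ (by positivity), one_mul] at h8
    have hlogM : log |a| = 2 * log M := by rw [haM, Real.log_pow]; push_cast; ring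
    have hlog : log √M = log |a| / 4 := by rw [Real.log_sqrt hM0.le, hlogM]; ring
    have h9 : |a| ^ E ≤ √M ^ k := by
      rw [Real.rpow_def_of_pos ha0, ← Real.exp_log (show (0:ℝ) < √M ^ k by positivity)]
      apply Real.exp_le_exp.2
      rw [Real.log_pow, hlog]
      have hla : 0 < log |a| := Real.log_pos ha1
      nlinarith
    have e1 : (1:ℝ≥0∞) = ENNReal.ofReal 1 := by norm_num
    have e2 : (2:ℝ≥0∞) = ENNReal.ofReal 2 := by norm_num
    rw [e1, e2, ← ENNReal.ofReal_mul (by norm_num), ← ENNReal.ofReal_add (by norm_num)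
      (by positivity)]
    exact ENNReal.ofReal_le_ofReal (by linarith)

/-- the area of the neighbourhood, both versions, against the length -/
theorem nb_len {M : ℝ} (hM : 16 ≤ M) (k : ℕ) (F : Set T2) :
    volume (hnbd ((1 / √M) ^ (k + 1) / 5) F) ≤
      ENNReal.ofReal (4 * ((1 / √M) ^ (k + 1) / 5)) * Measure.hausdorffMeasure 1 F ∧
    volume (hnbd ((1 / √M) ^ (k + 1) / 5) (Prod.swap ⁻¹' F)) ≤
      ENNReal.ofReal (4 * ((1 / √M) ^ (k + 1) / 5)) * Measure.hausdorffMeasure 1 F := by
  have hM0 : 0 < M := by linarith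
  have hs0 : 0 < √M := Real.sqrt_pos.2 hM0
  have hr : 0 < (1 / √M) ^ (k + 1) / 5 := by positivity
  exact ⟨vol_hnbd hr _, (vol_hnbd hr _).trans (mul_le_mul_right (haus_swap _) _)⟩

/-- for every set, one of the boundaries at the times `0` and `2 tm` is long -/
theorem two_times {a M : ℝ} (hM : 16 ≤ M) (haM : |a| = M ^ 2) {η : ℝ} {B : Set T2}
    (h1 : ENNReal.ofReal η ≤ volume B) (h2 : ENNReal.ofReal η ≤ volume Bᶜ) :
    ENNReal.ofReal (|a| ^ ((η * |a| - 5 * M) / 12)) ≤
      1 + 2 * max (Measure.hausdorffMeasure 1 (frontier B))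
        (Measure.hausdorffMeasure 1 (frontier ((S a)^[tm a M η + tm a M η] '' B))) := by
  have hM0 : 0 < M := by linarith
  have ha0 : 0 < |a| := by rw [haM]; positivity
  have ha1 : 1 < |a| := by rw [haM]; nlinarith
  by_cases hE : 0 < (η * |a| - 5 * M) / 12
  · have ht : 1 ≤ tm a M η := by unfold tm; omega
    have hone : ENNReal.ofReal η ≤ 1 := by
      refine h1.trans ?_
      have h3 : volume (univ : Set T2) = 1 := by
        rw [Measure.volume_eq_prod, ← univ_prod_univ, Measure.prod_prod]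
        simp
      rw [← h3]
      exact measure_mono (subset_univ _)
    rcases alternative hM haM ht ht B with h | h
    · apply len_of hM haM hE
      refine ((le_min h1 h2).trans h).trans (add_le_add_right ?_ _)
      exact ((nb_len hM _ _).1).trans (mul_le_mul_right (le_max_left _ _) _)
    · apply len_of hM haM hE
      refine (hone.trans h).trans (add_le_add_right ?_ _)
      exact ((nb_len hM _ _).2).trans (mul_le_mul_right (le_max_right _ _) _)
  · have h3 : |a| ^ ((η * |a| - 5 * M) / 12) ≤ 1 := by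
      apply Real.rpow_le_one_of_one_le_of_nonpos ha1.le
      linarith
    calc ENNReal.ofReal (|a| ^ ((η * |a| - 5 * M) / 12)) ≤ ENNReal.ofReal 1 :=
          ENNReal.ofReal_le_ofReal h3
      _ = 1 := by norm_num
      _ ≤ _ := le_self_add

end Pool.Agent.Q183.SMG
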